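import Pool.Agent.MP_2fa7ec_pr.Defs

-- part MP_2fa7ec_pr.Basic
section

/-!
Elementary properties of the generating function on the box `[0,1]^X`.
-/

namespace Pool.Agent.MP_2fa7ec_pr

open Set

variable {X : Type*}

/-- The monomial `∏_y z(y)^{f(y)}`. -/
noncomputable def mono (z : X → ℝ) (f : X →₀ ℕ) : ℝ := f.prod (fun y n => z y ^ n)

/-- The box `[0,1]^X`. -/
def box (X : Type*) : Set (X → ℝ) := Set.Icc 0 1

lemma mem_box {z : X → ℝ} : z ∈ box X ↔ ∀ x, z x ∈ Set.Icc (0 : ℝ) 1 := by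
  constructor
  · intro h x; exact ⟨h.1 x, h.2 x⟩
  · intro h; exact ⟨fun x => (h x).1, fun x => (h x).2⟩

lemma genFun_eq (μ : X → PMF (X →₀ ℕ)) (z : X → ℝ) (x : X) :
    genFun μ z x = ∑' f : X →₀ ℕ, (μ x f).toReal * mono z f := rfl

lemma mono_nonneg {z : X → ℝ} (hz : 0 ≤ z) (f : X →₀ ℕ) : 0 ≤ mono z f :=
  Finset.prod_nonneg (fun y _ => pow_nonneg (hz y) _)

lemma mono_le_mono {z w : X → ℝ} (hz : 0 ≤ z) (hzw : z ≤ w) (f : X →₀ ℕ) :
    mono z f ≤ mono w f :=
  Finset.prod_le_prod (fun y _ => pow_nonneg (hz y) _)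
    (fun y _ => pow_le_pow_left₀ (hz y) (hzw y) _)

lemma mono_one (f : X →₀ ℕ) : mono (1 : X → ℝ) f = 1 := by
  simp [mono, Finsupp.prod]

lemma mono_le_one {z : X → ℝ} (hz : z ∈ box X) (f : X →₀ ℕ) : mono z f ≤ 1 := by
  have := mono_le_mono hz.1 hz.2 f
  rwa [mono_one] at this

lemma hasSum_prob (μ : X → PMF (X →₀ ℕ)) (x : X) :
    HasSum (fun f : X →₀ ℕ => (μ x f).toReal) 1 := by
  have h1 : ∑' f, μ x f = 1 := (μ x).tsum_coe
  have h2 := ENNReal.hasSum_toReal (f := fun f => μ x f) (by rw [h1]; exact ENNReal.one_ne_top)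
  rw [← ENNReal.tsum_toReal_eq (fun f => (μ x).apply_ne_top f), h1] at h2
  simpa using h2

lemma summable_term (μ : X → PMF (X →₀ ℕ)) {z : X → ℝ} (hz : z ∈ box X) (x : X) :
    Summable (fun f : X →₀ ℕ => (μ x f).toReal * mono z f) := by
  refine Summable.of_nonneg_of_le (fun f => mul_nonneg ENNReal.toReal_nonneg (mono_nonneg hz.1 f))
    (fun f => ?_) (hasSum_prob μ x).summable
  exact mul_le_of_le_one_right ENNReal.toReal_nonneg (mono_le_one hz f)

lemma genFun_nonneg (μ : X → PMF (X →₀ ℕ)) {z : X → ℝ} (hz : 0 ≤ z) (x : X) :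
    0 ≤ genFun μ z x :=
  tsum_nonneg (fun f => mul_nonneg ENNReal.toReal_nonneg (mono_nonneg hz f))

lemma genFun_mono (μ : X → PMF (X →₀ ℕ)) {z w : X → ℝ} (hz : z ∈ box X) (hw : w ∈ box X)
    (hzw : z ≤ w) (x : X) : genFun μ z x ≤ genFun μ w x :=
  (summable_term μ hz x).tsum_le_tsum
    (fun f => mul_le_mul_of_nonneg_left (mono_le_mono hz.1 hzw f) ENNReal.toReal_nonneg)
    (summable_term μ hw x)

lemma one_mem_box : (1 : X → ℝ) ∈ box X := ⟨zero_le_one, le_rfl⟩

lemma genFun_one (μ : X → PMF (X →₀ ℕ)) (x : X) : genFun μ 1 x = 1 := by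
  rw [genFun_eq]
  simp only [mono_one, mul_one]
  exact (hasSum_prob μ x).tsum_eq

lemma genFun_le_one (μ : X → PMF (X →₀ ℕ)) {z : X → ℝ} (hz : z ∈ box X) (x : X) :
    genFun μ z x ≤ 1 := by
  have := genFun_mono μ hz one_mem_box hz.2 x
  rwa [genFun_one] at this

lemma continuous_mono (f : X →₀ ℕ) : Continuous (fun z : X → ℝ => mono z f) := by
  unfold mono Finsupp.prod
  exact continuous_finsetProd _ (fun y _ => (continuous_apply y).pow _)

lemma continuousOn_genFun (μ : X → PMF (X →₀ ℕ)) (x : X) :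
    ContinuousOn (fun z : X → ℝ => genFun μ z x) (box X) := by
  refine continuousOn_tsum (u := fun f => (μ x f).toReal)
    (fun f => (continuous_const.mul (continuous_mono f)).continuousOn)
    (hasSum_prob μ x).summable (fun f z hz => ?_)
  change ‖(μ x f).toReal * mono z f‖ ≤ _
  rw [Real.norm_of_nonneg (mul_nonneg ENNReal.toReal_nonneg (mono_nonneg hz.1 f))]
  exact mul_le_of_le_one_right ENNReal.toReal_nonneg (mono_le_one hz f)

/-- The relation used to prove convexity along nonnegative directions. -/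
def Rel3 (l a b c : ℝ) : Prop := 0 ≤ a ∧ a ≤ b ∧ 0 ≤ c ∧ c ≤ l * a + (1 - l) * b

lemma Rel3.one (l : ℝ) : Rel3 l 1 1 1 := ⟨zero_le_one, le_rfl, zero_le_one, by linarith⟩

lemma Rel3.mul {l a b c a' b' c' : ℝ} (hl0 : 0 ≤ l) (hl1 : l ≤ 1) (h : Rel3 l a b c)
    (h' : Rel3 l a' b' c') : Rel3 l (a * a') (b * b') (c * c') := by
  obtain ⟨h1, h2, h3, h4⟩ := h
  obtain ⟨h1', h2', h3', h4'⟩ := h'
  refine ⟨mul_nonneg h1 h1', mul_le_mul h2 h2' h1' (h1.trans h2), mul_nonneg h3 h3', ?_⟩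
  have e1 : c * c' ≤ (l * a + (1 - l) * b) * (l * a' + (1 - l) * b') :=
    mul_le_mul h4 h4' h3' (h3.trans h4)
  have e2 : 0 ≤ l * (1 - l) * ((b - a) * (b' - a')) :=
    mul_nonneg (mul_nonneg hl0 (by linarith)) (mul_nonneg (by linarith) (by linarith))
  nlinarith

lemma Rel3.pow {l a b c : ℝ} (hl0 : 0 ≤ l) (hl1 : l ≤ 1) (h : Rel3 l a b c) (n : ℕ) :
    Rel3 l (a ^ n) (b ^ n) (c ^ n) := by
  induction n with
  | zero => simpa using Rel3.one l
  | succ n ih => simpa [pow_succ] using ih.mul hl0 hl1 h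

lemma Rel3.prod {ι : Type*} {l : ℝ} (hl0 : 0 ≤ l) (hl1 : l ≤ 1) (s : Finset ι) (a b c : ι → ℝ)
    (h : ∀ i ∈ s, Rel3 l (a i) (b i) (c i)) :
    Rel3 l (∏ i ∈ s, a i) (∏ i ∈ s, b i) (∏ i ∈ s, c i) := by
  classical
  induction s using Finset.induction_on with
  | empty => simpa using Rel3.one l
  | insert i s hi ih =>
    rw [Finset.prod_insert hi, Finset.prod_insert hi, Finset.prod_insert hi]
    exact (h i (Finset.mem_insert_self _ _)).mul hl0 hl1
      (ih (fun j hj => h j (Finset.mem_insert_of_mem hj)))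

/-- Convexity of `G` along segments `[a,b]` with `a ≤ b`. -/
lemma genFun_convex (μ : X → PMF (X →₀ ℕ)) {a b c : X → ℝ} (ha : a ∈ box X) (hb : b ∈ box X)
    (hc : c ∈ box X) (hab : a ≤ b) {l : ℝ} (hl0 : 0 ≤ l) (hl1 : l ≤ 1)
    (hcomb : ∀ y, c y = l * a y + (1 - l) * b y) (x : X) :
    genFun μ c x ≤ l * genFun μ a x + (1 - l) * genFun μ b x := by
  have hm : ∀ f : X →₀ ℕ, mono c f ≤ l * mono a f + (1 - l) * mono b f := by
    intro f
    have := Rel3.prod hl0 hl1 f.support (fun y => a y ^ f y) (fun y => b y ^ f y)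
      (fun y => c y ^ f y)
      (fun y _ => Rel3.pow hl0 hl1 ⟨ha.1 y, hab y, hc.1 y, (hcomb y).le⟩ _)
    exact this.2.2.2
  rw [genFun_eq, genFun_eq, genFun_eq, ← tsum_mul_left, ← tsum_mul_left,
    ← Summable.tsum_add ((summable_term μ ha x).mul_left _) ((summable_term μ hb x).mul_left _)]
  refine (summable_term μ hc x).tsum_le_tsum (fun f => ?_)
    (((summable_term μ ha x).mul_left _).add ((summable_term μ hb x).mul_left _))
  have := mul_le_mul_of_nonneg_left (hm f) (ENNReal.toReal_nonneg (a := μ x f))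
  linarith

/-- If `G(w)(x) = 1` then `w = 1` at every site where `x` may place a child. -/
lemma eq_one_of_edge (μ : X → PMF (X →₀ ℕ)) {w : X → ℝ} (hw : w ∈ box X) {x y : X}
    (h1 : 1 ≤ genFun μ w x) (hxy : Edge μ x y) : w y = 1 := by
  obtain ⟨f, hf, hfy⟩ := hxy
  by_contra hne
  have hlt : w y < 1 := lt_of_le_of_ne (hw.2 y) hne
  have hpos : 0 < (μ x f).toReal := ENNReal.toReal_pos hf ((μ x).apply_ne_top f)
  have hmono : mono w f < 1 := by
    classical
    unfold mono Finsupp.prod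
    have hy : y ∈ f.support := Finsupp.mem_support_iff.2 hfy
    rw [← Finset.mul_prod_erase _ _ hy]
    have h2 : ∏ a ∈ f.support.erase y, w a ^ f a ≤ 1 :=
      Finset.prod_le_one (fun a _ => pow_nonneg (hw.1 a) _)
        (fun a _ => pow_le_one₀ (hw.1 a) (hw.2 a))
    have h3 : w y ^ f y < 1 := pow_lt_one₀ (hw.1 y) hlt hfy
    have h4 : 0 ≤ w y ^ f y := pow_nonneg (hw.1 y) _
    calc w y ^ f y * ∏ a ∈ f.support.erase y, w a ^ f a ≤ w y ^ f y * 1 :=
          mul_le_mul_of_nonneg_left h2 h4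
      _ < 1 := by simpa using h3
  have hlt2 : genFun μ w x < ∑' f : X →₀ ℕ, (μ x f).toReal := by
    rw [genFun_eq]
    refine Summable.tsum_lt_tsum (i := f)
      (fun g => mul_le_of_le_one_right ENNReal.toReal_nonneg (mono_le_one hw g)) ?_
      (summable_term μ hw x) (hasSum_prob μ x).summable
    exact mul_lt_of_lt_one_right hpos hmono
  rw [(hasSum_prob μ x).tsum_eq] at hlt2
  linarith

end Pool.Agent.MP_2fa7ec_pr

end

-- part MP_2fa7ec_pr.Main
section

/-!
Between two ordered fixed points `q ≤ z < 1` of the generating function of an irreducible BRW,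
every intermediate value at a given site is attained by a fixed point.
-/

namespace Pool.Agent.MP_2fa7ec_pr

open Set

variable {X : Type*}

/-- If two ordered vectors agree off a finite set `S`, are fixed by `G` on `S`, the larger one
is `< 1` everywhere and they differ, then the ray through them passes through `1`. -/
lemma stretch (μ : X → PMF (X →₀ ℕ)) (hirr : IsIrreducibleBRW μ) (S : Finset X)
    {m w : X → ℝ} (hm : m ∈ box X) (hw : w ∈ box X) (hmw : m ≤ w)
    (hoff : ∀ x, x ∉ S → m x = w x) (hGm : ∀ x ∈ S, genFun μ m x = m x)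
    (hGw : ∀ x ∈ S, genFun μ w x = w x) (hlt : ∀ x, w x < 1) (hne : m ≠ w) :
    ∃ s : ℝ, 1 < s ∧ ∀ y, m y + s * (w y - m y) = 1 := by
  classical
  have hD : (S.filter (fun x => m x < w x)).Nonempty := by
    by_contra hD
    apply hne
    funext x
    by_cases hx : x ∈ S
    · by_contra h
      exact hD ⟨x, Finset.mem_filter.2 ⟨hx, lt_of_le_of_ne (hmw x) h⟩⟩
    · exact hoff x hx
  obtain ⟨x0, hx0, hmin⟩ := Finset.exists_min_image _ (fun x => (1 - m x) / (w x - m x)) hD
  obtain ⟨hx0S, hx0lt⟩ := Finset.mem_filter.1 hx0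
  set s : ℝ := (1 - m x0) / (w x0 - m x0) with hs
  have hd0 : 0 < w x0 - m x0 := by linarith
  have hs1 : 1 < s := by
    rw [hs, lt_div_iff₀ hd0]; linarith [hlt x0]
  have hs0 : 0 < s := by linarith
  set u : X → ℝ := fun y => m y + s * (w y - m y) with hu
  have hmu : m ≤ u := by
    intro y
    have : 0 ≤ s * (w y - m y) := mul_nonneg hs0.le (by linarith [hmw y])
    simp only [hu]; linarith
  have hubox : u ∈ box X := by
    refine ⟨hm.1.trans hmu, fun y => ?_⟩
    rcases (hmw y).eq_or_lt with h | h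
    · have h1 : m y ≤ 1 := hm.2 y
      simp only [hu, Pi.one_apply]; rw [h] at h1 ⊢; linarith
    · have hyS : y ∈ S := by
        by_contra hy
        exact h.ne (hoff y hy)
      have h1 := hmin y (Finset.mem_filter.2 ⟨hyS, h⟩)
      have hd : 0 < w y - m y := by linarith
      rw [le_div_iff₀ hd] at h1
      simp only [hu, Pi.one_apply]; linarith
  have hux0 : u x0 = 1 := by
    simp only [hu, hs]; field_simp; ring
  have hl0 : 0 ≤ 1 - 1 / s := by
    have : 1 / s ≤ 1 := by rw [div_le_one hs0]; exact hs1.le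
    linarith
  have hl1 : 1 - 1 / s ≤ 1 := by
    have : 0 < 1 / s := by positivity
    linarith
  have hcomb : ∀ y, w y = (1 - 1 / s) * m y + (1 - (1 - 1 / s)) * u y := by
    intro y; simp only [hu]; field_simp; ring
  have hsub : ∀ x ∈ S, u x ≤ genFun μ u x := by
    intro x hx
    have h1 := genFun_convex μ hm hubox hw hmu hl0 hl1 hcomb x
    rw [hGm x hx, hGw x hx, hcomb x] at h1
    have h2 : 0 < 1 - (1 - 1 / s) := by
      have : 0 < 1 / s := by positivity
      linarith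
    have h3 : (1 - (1 - 1 / s)) * u x ≤ (1 - (1 - 1 / s)) * genFun μ u x := by linarith
    exact le_of_mul_le_mul_left h3 h2
  have hstep : ∀ x y, u x = 1 → Edge μ x y → u y = 1 := by
    intro x y hx hxy
    have hxS : x ∈ S := by
      by_contra hxS
      have h1 := hoff x hxS
      have h2 := hlt x
      simp only [hu] at hx
      rw [h1] at hx
      linarith
    exact eq_one_of_edge μ hubox (hx ▸ hsub x hxS) hxy
  refine ⟨s, hs1, fun y => ?_⟩
  have h := hirr x0 y
  change u y = 1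
  induction h with
  | refl => exact hux0
  | tail _ hyz ih => exact hstep _ _ ih hyz

/-- A fixed point other than `1` is `< 1` everywhere. -/
lemma lt_one_of_fixed (μ : X → PMF (X →₀ ℕ)) (hirr : IsIrreducibleBRW μ) {z : X → ℝ}
    (hz : z ∈ box X) (hG : ∀ x, genFun μ z x = z x) (hne : z ≠ 1) (x : X) : z x < 1 := by
  by_contra h
  have hx : z x = 1 := le_antisymm (hz.2 x) (not_lt.1 h)
  apply hne
  funext y
  have h := hirr x y
  change z y = 1
  induction h with
  | refl => exact hx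
  | tail _ hyz ih => exact eq_one_of_edge μ hz (by rw [hG, ih]) hyz

/-- Least solution of the problem truncated to `S` with boundary data `b`, below `z`. -/
lemma exists_least (μ : X → PMF (X →₀ ℕ)) (S : Set X) {z b : X → ℝ} (hz : z ∈ box X)
    (hG : ∀ x, genFun μ z x = z x) (hb0 : 0 ≤ b) (hbz : b ≤ z) :
    ∃ m : X → ℝ, m ∈ Icc 0 z ∧ (∀ x, x ∉ S → m x = b x) ∧ (∀ x ∈ S, genFun μ m x = m x) ∧
      ∀ w : X → ℝ, w ∈ Icc 0 z → (∀ x, x ∉ S → w x = b x) → (∀ x ∈ S, genFun μ w x = w x) →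
        m ≤ w := by
  classical
  have : Fact ((0 : X → ℝ) ≤ z) := ⟨hz.1⟩
  have hsub : ∀ w : X → ℝ, w ∈ Icc 0 z → w ∈ box X := fun w hw => ⟨hw.1, hw.2.trans hz.2⟩
  let T : Icc (0 : X → ℝ) z →o Icc (0 : X → ℝ) z :=
    { toFun := fun w => ⟨fun x => if x ∈ S then genFun μ w.1 x else b x, by
        constructor
        · intro x
          by_cases hx : x ∈ S
          · simp only [hx, if_true]; exact genFun_nonneg μ w.2.1 x
          · simp only [hx, if_false]; exact hb0 x
        · intro x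
          by_cases hx : x ∈ S
          · simp only [hx, if_true]
            rw [← hG x]
            exact genFun_mono μ (hsub _ w.2) hz w.2.2 x
          · simp only [hx, if_false]; exact hbz x⟩
      monotone' := by
        intro w w' hww' x
        by_cases hx : x ∈ S
        · simp only [hx, if_true]
          exact genFun_mono μ (hsub _ w.2) (hsub _ w'.2) hww' x
        · simp only [hx, if_false]; exact le_rfl }
  have hfix : T (OrderHom.lfp T) = OrderHom.lfp T := OrderHom.map_lfp T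
  refine ⟨(OrderHom.lfp T).1, (OrderHom.lfp T).2, fun x hx => ?_, fun x hx => ?_, ?_⟩
  · have := congrFun (congrArg Subtype.val hfix) x
    simp only [T, OrderHom.coe_mk, hx, if_false] at this
    exact this.symm
  · have := congrFun (congrArg Subtype.val hfix) x
    simp only [T, OrderHom.coe_mk, hx, if_true] at this
    exact this
  · intro w hw hoff hon
    have : OrderHom.lfp T ≤ ⟨w, hw⟩ := by
      apply OrderHom.lfp_le
      intro x
      by_cases hx : x ∈ S
      · simp only [T, OrderHom.coe_mk, hx, if_true]; exact (hon x hx).le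
      · simp only [T, OrderHom.coe_mk, hx, if_false]; exact (hoff x hx).ge
    exact this

/-- Intermediate values for the truncated problem. -/
lemma truncated_ivt (μ : X → PMF (X →₀ ℕ)) (hirr : IsIrreducibleBRW μ) (S : Finset X)
    (hS : ∃ y, y ∉ S) {q z : X → ℝ} (hq0 : 0 ≤ q) (hqz : q ≤ z) (hz : z ∈ box X)
    (hGq : ∀ x, genFun μ q x = q x) (hGz : ∀ x, genFun μ z x = z x) (hlt : ∀ x, z x < 1)
    (x0 : X) {c : ℝ} (hc : c ∈ Icc (q x0) (z x0)) :
    ∃ w : X → ℝ, w ∈ Icc 0 z ∧ w x0 = c ∧ ∀ x ∈ S, genFun μ w x = w x := by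
  classical
  have hsub : ∀ w : X → ℝ, w ∈ Icc 0 z → w ∈ box X := fun w hw => ⟨hw.1, hw.2.trans hz.2⟩
  let b : ℝ → X → ℝ := fun t x => q x + t * (z x - q x)
  have hb0 : ∀ t ∈ Icc (0 : ℝ) 1, 0 ≤ b t := by
    intro t ht x
    have h1 : 0 ≤ t * (z x - q x) := mul_nonneg ht.1 (by linarith [hqz x])
    have h2 : 0 ≤ q x := hq0 x
    simp only [b, Pi.zero_apply]; linarith
  have hbz : ∀ t ∈ Icc (0 : ℝ) 1, b t ≤ z := by
    intro t ht x
    have h1 : t * (z x - q x) ≤ 1 * (z x - q x) :=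
      mul_le_mul_of_nonneg_right ht.2 (by linarith [hqz x])
    simp only [b]; linarith
  let K : Set (ℝ × (X → ℝ)) := {p | p ∈ Icc (0 : ℝ) 1 ×ˢ Icc (0 : X → ℝ) z ∧
    (∀ x, x ∉ S → p.2 x = b p.1 x) ∧ ∀ x ∈ S, genFun μ p.2 x = p.2 x}
  have hB : IsCompact (Icc (0 : ℝ) 1 ×ˢ Icc (0 : X → ℝ) z) := isCompact_Icc.prod isCompact_Icc
  have hKc : IsClosed K := by
    have e : K = (Icc (0 : ℝ) 1 ×ˢ Icc (0 : X → ℝ) z) ∩
        ((⋂ x, ⋂ (_ : x ∉ S), {p : ℝ × (X → ℝ) | p.2 x = b p.1 x}) ∩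
        ⋂ x, ⋂ (_ : x ∈ S), {p ∈ Icc (0 : ℝ) 1 ×ˢ Icc (0 : X → ℝ) z |
          genFun μ p.2 x = p.2 x}) := by
      ext p
      simp only [K, mem_ofPred_eq, mem_inter_iff, mem_iInter]
      constructor
      · rintro ⟨h1, h2, h3⟩; exact ⟨h1, h2, fun x hx => ⟨h1, h3 x hx⟩⟩
      · rintro ⟨h1, h2, h3⟩; exact ⟨h1, h2, fun x hx => (h3 x hx).2⟩
    rw [e]
    refine hB.isClosed.inter (IsClosed.inter ?_ ?_)
    · refine isClosed_iInter (fun x => isClosed_iInter (fun _ => ?_))
      exact isClosed_eq (by fun_prop) (by simp only [b]; fun_prop)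
    · refine isClosed_iInter (fun x => isClosed_iInter (fun _ => ?_))
      refine hB.isClosed.isClosed_eq ?_ (by fun_prop)
      exact (continuousOn_genFun μ x).comp continuous_snd.continuousOn
        (fun p hp => hsub _ hp.2)
  have hK : IsCompact K := hB.of_isClosed_subset hKc (fun p hp => hp.1)
  have huniq : ∀ t w w', (t, w) ∈ K → (t, w') ∈ K → w = w' := by
    intro t w w' hw hw'
    obtain ⟨m, hm, hmoff, hmon, hmle⟩ :=
      exists_least μ (S : Set X) hz hGz (hb0 t hw.1.1) (hbz t hw.1.1)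
    have key : ∀ v, (t, v) ∈ K → m = v := by
      intro v hv
      by_contra hne
      obtain ⟨s, hs, hs1⟩ := stretch μ hirr S (hsub _ hm) (hsub _ hv.1.2)
        (hmle v hv.1.2 hv.2.1 hv.2.2) (fun x hx => by rw [hmoff x hx]; exact (hv.2.1 x hx).symm)
        hmon hv.2.2 (fun x => lt_of_le_of_lt (hv.1.2.2 x) (hlt x)) hne
      obtain ⟨y, hy⟩ := hS
      have h1 := hs1 y
      have h2 : m y = v y := by rw [hmoff y hy]; exact (hv.2.1 y hy).symm
      have h3 : v y < 1 := lt_of_le_of_lt (hv.1.2.2 y) (hlt y)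
      rw [h2] at h1
      linarith
    rw [← key w hw, key w' hw']
  let K1 := Prod.fst '' (K ∩ {p | p.2 x0 ≤ c})
  let K2 := Prod.fst '' (K ∩ {p | c ≤ p.2 x0})
  have hK1 : IsClosed K1 :=
    ((hK.inter_right (isClosed_le (by fun_prop) continuous_const)).image continuous_fst).isClosed
  have hK2 : IsClosed K2 :=
    ((hK.inter_right (isClosed_le continuous_const (by fun_prop))).image continuous_fst).isClosed
  have hcover : Icc (0 : ℝ) 1 ⊆ K1 ∪ K2 := by
    intro t ht
    obtain ⟨m, hm, hmoff, hmon, -⟩ := exists_least μ (S : Set X) hz hGz (hb0 t ht) (hbz t ht)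
    have hmK : (t, m) ∈ K := ⟨⟨ht, hm⟩, hmoff, hmon⟩
    rcases le_total (m x0) c with h | h
    · exact Or.inl ⟨(t, m), ⟨hmK, h⟩, rfl⟩
    · exact Or.inr ⟨(t, m), ⟨hmK, h⟩, rfl⟩
  have h0 : (Icc (0 : ℝ) 1 ∩ K1).Nonempty := by
    refine ⟨0, ⟨le_rfl, zero_le_one⟩, (0, q), ⟨⟨⟨⟨le_rfl, zero_le_one⟩, hq0, hqz⟩, ?_, ?_⟩, hc.1⟩,
      rfl⟩
    · intro x _; simp [b]
    · intro x _; exact hGq x
  have h1 : (Icc (0 : ℝ) 1 ∩ K2).Nonempty := by
    refine ⟨1, ⟨zero_le_one, le_rfl⟩, (1, z), ⟨⟨⟨⟨zero_le_one, le_rfl⟩, hz.1, le_rfl⟩, ?_, ?_⟩,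
      hc.2⟩, rfl⟩
    · intro x _; simp [b]
    · intro x _; exact hGz x
  obtain ⟨t, -, ⟨⟨t1, w1⟩, ⟨hw1, hc1⟩, rfl⟩, ⟨⟨t2, w2⟩, ⟨hw2, hc2⟩, ht⟩⟩ :=
    (isPreconnected_closed_iff.1 isPreconnected_Icc) K1 K2 hK1 hK2 hcover h0 h1
  simp only at ht
  subst ht
  have := huniq _ _ _ hw1 hw2
  subst this
  exact ⟨w1, hw1.1.2, le_antisymm hc1 hc2, hw1.2.2⟩

/-- Intermediate values for fixed points of `G`. -/
lemma fixed_ivt (μ : X → PMF (X →₀ ℕ)) (hirr : IsIrreducibleBRW μ)
    {q z : X → ℝ} (hq0 : 0 ≤ q) (hqz : q ≤ z) (hz : z ∈ box X)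
    (hGq : ∀ x, genFun μ q x = q x) (hGz : ∀ x, genFun μ z x = z x) (hlt : ∀ x, z x < 1)
    (x0 : X) (hx0 : q x0 < z x0) {c : ℝ} (hc : c ∈ Icc (q x0) (z x0)) :
    ∃ w : X → ℝ, w ∈ box X ∧ w x0 = c ∧ ∀ x, genFun μ w x = w x := by
  classical
  have hsub : ∀ w : X → ℝ, w ∈ Icc 0 z → w ∈ box X := fun w hw => ⟨hw.1, hw.2.trans hz.2⟩
  have hq : q ∈ box X := ⟨hq0, hqz.trans hz.2⟩
  by_cases hfin : ∀ S : Finset X, ∃ y, y ∉ S
  · have hC : IsCompact (Icc (0 : X → ℝ) z ∩ {w | w x0 = c}) :=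
      isCompact_Icc.inter_right (isClosed_eq (by fun_prop) continuous_const)
    obtain ⟨w, ⟨hw, hwc⟩, hw2⟩ := hC.inter_iInter_nonempty
      (fun x => {w ∈ box X | genFun μ w x = w x})
      (fun x => isClosed_Icc.isClosed_eq (continuousOn_genFun μ x) (by fun_prop))
      (fun S => by
        obtain ⟨w, hw, hwc, hw2⟩ := truncated_ivt μ hirr S (hfin S) hq0 hqz hz hGq hGz hlt x0 hc
        refine ⟨w, ⟨hw, hwc⟩, ?_⟩
        simp only [mem_iInter]
        exact fun x hx => ⟨hsub w hw, hw2 x hx⟩)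
    exact ⟨w, hsub w hw, hwc, fun x => (mem_iInter.1 hw2 x).2⟩
  · push Not at hfin
    obtain ⟨S, hS⟩ := hfin
    obtain ⟨s, hs, hs1⟩ := stretch μ hirr S hq hz hqz (fun x hx => (hx (hS x)).elim)
      (fun x _ => hGq x) (fun x _ => hGz x) hlt (fun h => hx0.ne (congrFun h x0))
    have hd : 0 < z x0 - q x0 := by linarith
    set t : ℝ := (c - q x0) / (z x0 - q x0) with ht
    have ht0 : 0 ≤ t := div_nonneg (by linarith [hc.1]) hd.le
    have ht1 : t ≤ 1 := by rw [ht, div_le_one hd]; linarith [hc.2]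
    let v : X → ℝ := fun y => q y + t * (z y - q y)
    have hv : v ∈ Icc 0 z := by
      constructor
      · intro y
        have h1 : 0 ≤ t * (z y - q y) := mul_nonneg ht0 (by linarith [hqz y])
        have h2 : 0 ≤ q y := hq0 y
        simp only [v, Pi.zero_apply]; linarith
      · intro y
        have h1 : t * (z y - q y) ≤ 1 * (z y - q y) :=
          mul_le_mul_of_nonneg_right ht1 (by linarith [hqz y])
        simp only [v]; linarith
    refine ⟨v, hsub v hv, ?_, fun x => le_antisymm ?_ ?_⟩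
    · simp only [v, ht]; field_simp; ring
    · have := genFun_convex μ hq hz (hsub v hv) hqz (l := 1 - t) (by linarith) (by linarith)
        (fun y => by simp only [v]; ring) x
      rw [hGq, hGz] at this
      simp only [v] at this ⊢
      linarith
    · have hst : 0 < s - t := by linarith
      set l : ℝ := (s - 1) / (s - t) with hl
      have hl0 : 0 < l := div_pos (by linarith) hst
      have hl1 : l ≤ 1 := by rw [hl, div_le_one hst]; linarith
      have hcomb : ∀ y, z y = l * v y + (1 - l) * (1 : X → ℝ) y := by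
        intro y
        have e : z y = l * v y + (1 - l) * (q y + s * (z y - q y)) := by
          simp only [v, hl]; field_simp; ring
        rw [hs1 y] at e
        exact e
      have := genFun_convex μ (hsub v hv) one_mem_box hz (hsub v hv).2 hl0.le hl1 hcomb x
      rw [hGz, genFun_one, hcomb x, Pi.one_apply] at this
      have h3 : l * v x ≤ l * genFun μ v x := by linarith
      exact le_of_mul_le_mul_left h3 hl0

/-- The dichotomy. -/
theorem dichotomy {X : Type} [Countable X] (μ : X → PMF (X →₀ ℕ))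
    (hirr : IsIrreducibleBRW μ) :
    (fixedSet μ).encard ≤ 2 ∨ Cardinal.mk (fixedSet μ) = Cardinal.continuum := by
  classical
  have hmem : ∀ z, z ∈ fixedSet μ ↔ z ∈ box X ∧ ∀ x, genFun μ z x = z x := by
    intro z
    simp only [fixedSet, mem_ofPred_eq, mem_box, funext_iff]
  obtain ⟨q, hq, -, hGq, hle⟩ := exists_least μ (univ : Set X) (z := 1) (b := 0) one_mem_box
    (fun x => genFun_one μ x) le_rfl zero_le_one
  by_cases h : fixedSet μ ⊆ {q, 1}
  · left
    refine (Set.encard_le_encard h).trans ?_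
    refine (Set.encard_insert_le _ _).trans ?_
    rw [Set.encard_singleton]; norm_num
  · right
    obtain ⟨z, hz, hzn⟩ := Set.not_subset.1 h
    simp only [mem_insert_iff, mem_singleton_iff, not_or] at hzn
    obtain ⟨hzb, hGz⟩ := (hmem z).1 hz
    have hqz : q ≤ z := hle z hzb (fun x hx => (hx (mem_univ x)).elim) (fun x _ => hGz x)
    have hlt := lt_one_of_fixed μ hirr hzb hGz hzn.2
    obtain ⟨x0, hx0⟩ : ∃ x0, q x0 < z x0 := by
      by_contra hcon
      push Not at hcon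
      exact hzn.1 (le_antisymm hcon hqz)
    apply le_antisymm
    · refine (Cardinal.mk_set_le _).trans ?_
      rw [← Cardinal.power_def, Cardinal.mk_real]
      calc Cardinal.continuum ^ (Cardinal.mk X) ≤ Cardinal.continuum ^ Cardinal.aleph0 :=
            Cardinal.power_le_power_left Cardinal.continuum_ne_zero Cardinal.mk_le_aleph0
        _ = Cardinal.continuum := Cardinal.continuum_power_aleph0
    · have hsub : Icc (q x0) (z x0) ⊆ (fun w : X → ℝ => w x0) '' fixedSet μ := by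
        intro c hc
        obtain ⟨w, hw, hwc, hGw⟩ := fixed_ivt μ hirr hq.1 hqz hzb
          (fun x => hGq x (mem_univ x)) hGz hlt x0 hx0 hc
        exact ⟨w, (hmem w).2 ⟨hw, hGw⟩, hwc⟩
      calc Cardinal.continuum = Cardinal.mk (Icc (q x0) (z x0)) := (Cardinal.mk_Icc_real hx0).symm
        _ ≤ Cardinal.mk ((fun w : X → ℝ => w x0) '' fixedSet μ) := Cardinal.mk_le_mk_of_subset hsub
        _ ≤ Cardinal.mk (fixedSet μ) := Cardinal.mk_image_le

end Pool.Agent.MP_2fa7ec_pr

end
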